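import Pool.Agent.X258.FAN.NonHom

/-! # A smooth `{0, 1/3, 2/3}`-EPG fan that is not endpoint-homogeneous

The two non-homeomorphic smooth `{0,1/3,2/3}`-EPG fans of `MP_56c207_gt.TwoFans` are joined at
their tops. The wedge is again a smooth `{0,1/3,2/3}`-EPG fan, but the second derived set of the
set of endpoints meets the blades of one of the two fans only in the top and does meet the blades
of the other one outside the top; so no homeomorphism takes an endpoint of the second fan to an
endpoint of the first.

The definitions (`IsArc`, `IsSubcontinuum`, `HereditarilyUnicoherent`, `IsRamification`, `IsFan`,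
`IsEndpoint`, `IsSeg`, `IsSmooth`, `IsEPG`) are in `Pool/Agent/H545R3/FanDefs.lean`. -/

set_option autoImplicit false

open Set Topology Filter Pool.Agent.H545R3.Fan Pool.Agent.X258.FAN

namespace Pool.Agent.Results.MP_0958cc_gt.WedgeOfFans

/-- The set `{0, 1/3, 2/3} ⊆ [0,1]`. -/
def thirds : Set unitInterval := {t | (t : ℝ) = 0 ∨ (t : ℝ) = 1 / 3 ∨ (t : ℝ) = 2 / 3}

lemma thirds_eq : thirds = Z3 := by
  ext t
  constructor
  · rintro (h | h | h)
    · exact Or.inl (Subtype.ext h)
    · exact Or.inr (Or.inl (Subtype.ext h))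
    · exact Or.inr (Or.inr (Subtype.ext h))
  · rintro (h | h | h)
    · left; rw [h]
    · right; left; rw [h]
    · right; right; rw [h]

/-- There is a smooth `{0,1/3,2/3}`-EPG fan (a subspace of the plane) with two endpoints `e`, `e'`
such that no homeomorphism of the fan onto itself takes `e` to `e'`. -/
theorem result : ∃ (F : Set (ℝ × ℝ)) (t : F), IsFan F t ∧ IsSmooth t ∧ IsEPG t thirds ∧
    ∃ e e' : F, IsEndpoint e ∧ IsEndpoint e' ∧ ¬ ∃ h : F ≃ₜ F, h e = e' := by
  rw [thirds_eq]
  exact ⟨Fan (WK PP), top (goodW goodP), isFan _, isSmooth _, epgW, io PP true e2, io PP false e1,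
    (io_endpoint goodP _).2 e2_end, (io_endpoint goodP _).2 e1_end, not_hom⟩

end Pool.Agent.Results.MP_0958cc_gt.WedgeOfFans
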